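import Mathlib

/-!
Families of pairs of `±1` vectors (the real form of rows of a quaternary partial Hadamard matrix).
-/

set_option autoImplicit false

open Finset

namespace Pool.Agent.H109HD

/-- `K` pairs `(p c, q c)` of vectors of length `N` with entries `1, -1`, such that for distinct
`c, d` the sums `∑ (p c n * p d n + q c n * q d n)` and `∑ (p c n * q d n - q c n * p d n)`
vanish. -/
def OD (K N : ℕ) : Prop :=
  ∃ p q : ℕ → ℕ → ℤ, (∀ c n, p c n = 1 ∨ p c n = -1) ∧ (∀ c n, q c n = 1 ∨ q c n = -1) ∧
    ∀ c d, c < K → d < K → c ≠ d →
      ∑ n ∈ range N, (p c n * p d n + q c n * q d n) = 0 ∧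
      ∑ n ∈ range N, (p c n * q d n - q c n * p d n) = 0

theorem OD.zero (K : ℕ) : OD K 0 :=
  ⟨fun _ _ => 1, fun _ _ => 1, fun _ _ => Or.inl rfl, fun _ _ => Or.inl rfl,
    fun _ _ _ _ _ => by simp⟩

theorem OD.one : OD 1 1 :=
  ⟨fun _ _ => 1, fun _ _ => 1, fun _ _ => Or.inl rfl, fun _ _ => Or.inl rfl,
    fun c d hc hd h => absurd (by omega) h⟩

theorem OD.mono {K L N : ℕ} (h : OD L N) (hKL : K ≤ L) : OD K N := by
  obtain ⟨p, q, hp, hq, hh⟩ := h
  exact ⟨p, q, hp, hq, fun c d hc hd => hh c d (by omega) (by omega)⟩

theorem OD.add {K N M : ℕ} (h : OD K N) (h' : OD K M) : OD K (N + M) := by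
  obtain ⟨p, q, hp, hq, hh⟩ := h
  obtain ⟨p', q', hp', hq', hh'⟩ := h'
  refine ⟨fun c n => if n < N then p c n else p' c (n - N),
    fun c n => if n < N then q c n else q' c (n - N), ?_, ?_, ?_⟩
  · intro c n
    by_cases hn : n < N
    · simpa [hn] using hp c n
    · simpa [hn] using hp' c (n - N)
  · intro c n
    by_cases hn : n < N
    · simpa [hn] using hq c n
    · simpa [hn] using hq' c (n - N)
  · intro c d hc hd hcd
    obtain ⟨e1, e2⟩ := hh c d hc hd hcd
    obtain ⟨e1', e2'⟩ := hh' c d hc hd hcd
    constructor
    · rw [Finset.sum_range_add]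
      have a1 : ∑ n ∈ range N, ((if n < N then p c n else p' c (n - N))
            * (if n < N then p d n else p' d (n - N))
            + (if n < N then q c n else q' c (n - N)) * (if n < N then q d n else q' d (n - N)))
          = ∑ n ∈ range N, (p c n * p d n + q c n * q d n) := by
        refine Finset.sum_congr rfl fun n hn => ?_
        rw [Finset.mem_range] at hn
        simp only [hn, if_true]
      have a2 : ∑ n ∈ range M, ((if N + n < N then p c (N + n) else p' c (N + n - N))
            * (if N + n < N then p d (N + n) else p' d (N + n - N))
            + (if N + n < N then q c (N + n) else q' c (N + n - N))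
            * (if N + n < N then q d (N + n) else q' d (N + n - N)))
          = ∑ n ∈ range M, (p' c n * p' d n + q' c n * q' d n) := by
        refine Finset.sum_congr rfl fun n hn => ?_
        have : ¬ N + n < N := by omega
        simp only [this, if_false, Nat.add_sub_cancel_left]
      rw [a1, a2, e1, e1', add_zero]
    · rw [Finset.sum_range_add]
      have a1 : ∑ n ∈ range N, ((if n < N then p c n else p' c (n - N))
            * (if n < N then q d n else q' d (n - N))
            - (if n < N then q c n else q' c (n - N)) * (if n < N then p d n else p' d (n - N)))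
          = ∑ n ∈ range N, (p c n * q d n - q c n * p d n) := by
        refine Finset.sum_congr rfl fun n hn => ?_
        rw [Finset.mem_range] at hn
        simp only [hn, if_true]
      have a2 : ∑ n ∈ range M, ((if N + n < N then p c (N + n) else p' c (N + n - N))
            * (if N + n < N then q d (N + n) else q' d (N + n - N))
            - (if N + n < N then q c (N + n) else q' c (N + n - N))
            * (if N + n < N then p d (N + n) else p' d (N + n - N)))
          = ∑ n ∈ range M, (p' c n * q' d n - q' c n * p' d n) := by
        refine Finset.sum_congr rfl fun n hn => ?_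
        have : ¬ N + n < N := by omega
        simp only [this, if_false, Nat.add_sub_cancel_left]
      rw [a1, a2, e2, e2', add_zero]

theorem OD.mul {K N : ℕ} (h : OD K N) (m : ℕ) : OD K (m * N) := by
  induction m with
  | zero => simpa using OD.zero K
  | succ m ih => rw [Nat.succ_mul]; exact ih.add h

/-- Sylvester matrices -/
theorem syl (b : ℕ) : ∃ H : ℕ → ℕ → ℤ, (∀ c n, H c n = 1 ∨ H c n = -1) ∧
    ∀ c d, c < 2 ^ b → d < 2 ^ b → c ≠ d → ∑ n ∈ range (2 ^ b), H c n * H d n = 0 := by
  induction b with
  | zero =>
    exact ⟨fun _ _ => 1, fun _ _ => Or.inl rfl, fun c d hc hd h => absurd (by omega) h⟩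
  | succ b ih =>
    obtain ⟨H, hH, hh⟩ := ih
    set m := 2 ^ b with hm
    have hp : 2 ^ (b + 1) = m + m := by rw [pow_succ]; ring
    -- the sign attached to the half in which the row lies
    refine ⟨fun c n => (if n < m then 1 else (if c < m then 1 else -1)) *
      H (if c < m then c else c - m) (if n < m then n else n - m), ?_, ?_⟩
    · intro c n
      dsimp only
      rcases hH (if c < m then c else c - m) (if n < m then n else n - m) with h | h <;>
        rw [h] <;> by_cases hn : n < m <;> by_cases hc : c < m <;> simp [hn, hc]
    · intro c d hc hd hcd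
      rw [hp] at hc hd ⊢
      rw [Finset.sum_range_add]
      have a1 : ∑ n ∈ range m, ((if n < m then 1 else (if c < m then 1 else -1)) *
            H (if c < m then c else c - m) (if n < m then n else n - m))
            * ((if n < m then 1 else (if d < m then 1 else -1)) *
            H (if d < m then d else d - m) (if n < m then n else n - m))
          = ∑ n ∈ range m, H (if c < m then c else c - m) n * H (if d < m then d else d - m) n := by
        refine Finset.sum_congr rfl fun n hn => ?_
        rw [Finset.mem_range] at hn
        simp only [hn, if_true, one_mul]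
      have a2 : ∑ n ∈ range m, ((if m + n < m then 1 else (if c < m then 1 else -1)) *
            H (if c < m then c else c - m) (if m + n < m then m + n else m + n - m))
            * ((if m + n < m then 1 else (if d < m then 1 else -1)) *
            H (if d < m then d else d - m) (if m + n < m then m + n else m + n - m))
          = ((if c < m then 1 else -1) * (if d < m then 1 else -1) : ℤ) *
          ∑ n ∈ range m, H (if c < m then c else c - m) n * H (if d < m then d else d - m) n := by
        rw [Finset.mul_sum]
        refine Finset.sum_congr rfl fun n hn => ?_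
        have : ¬ m + n < m := by omega
        simp only [this, if_false, Nat.add_sub_cancel_left]
        ring
      rw [a1, a2]
      by_cases hcm : c < m <;> by_cases hdm : d < m
      · simp only [hcm, hdm, if_true]
        rw [hh c d hcm hdm hcd]; simp
      · simp only [hcm, hdm, if_true, if_false]
        ring
      · simp only [hcm, hdm, if_true, if_false]
        ring
      · simp only [hcm, hdm, if_false]
        rw [hh (c - m) (d - m) (by omega) (by omega) (by omega)]; simp

theorem OD.pow (b : ℕ) : OD (2 ^ b) (2 ^ b) := by
  obtain ⟨H, hH, hh⟩ := syl b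
  refine ⟨H, H, hH, hH, fun c d hc hd hcd => ⟨?_, ?_⟩⟩
  · have := hh c d hc hd hcd
    rw [Finset.sum_add_distrib, this, add_zero]
  · refine Finset.sum_eq_zero fun n _ => ?_
    ring

end Pool.Agent.H109HD
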