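import Mathlib
import Pool.Agent.H109R2.HD.Orth

/-!
Symmetric Paley conference matrices over finite fields of order `1 mod 4`.
-/

set_option autoImplicit false

open Finset

namespace Pool.Agent.H109HD

theorem OD.of_fintype {C V : Type} [Fintype C] [Fintype V] (P Q : C → V → ℤ)
    (hP : ∀ c n, P c n = 1 ∨ P c n = -1) (hQ : ∀ c n, Q c n = 1 ∨ Q c n = -1)
    (h : ∀ c d, c ≠ d → ∑ n, (P c n * P d n + Q c n * Q d n) = 0 ∧
      ∑ n, (P c n * Q d n - Q c n * P d n) = 0) : OD (Fintype.card C) (Fintype.card V) := by
  classical
  let e := Fintype.equivFin C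
  let f := Fintype.equivFin V
  refine ⟨fun c n => if hc : c < Fintype.card C then if hn : n < Fintype.card V then
      P (e.symm ⟨c, hc⟩) (f.symm ⟨n, hn⟩) else 1 else 1,
    fun c n => if hc : c < Fintype.card C then if hn : n < Fintype.card V then
      Q (e.symm ⟨c, hc⟩) (f.symm ⟨n, hn⟩) else 1 else 1, ?_, ?_, ?_⟩
  · intro c n
    dsimp only
    split_ifs
    · exact hP _ _
    · exact Or.inl rfl
    · exact Or.inl rfl
  · intro c n
    dsimp only
    split_ifs
    · exact hQ _ _
    · exact Or.inl rfl
    · exact Or.inl rfl
  · intro c d hc hd hcd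
    have hne : e.symm ⟨c, hc⟩ ≠ e.symm ⟨d, hd⟩ := by
      intro h0
      apply hcd
      have := e.symm.injective h0
      simpa using this
    obtain ⟨h1, h2⟩ := h _ _ hne
    constructor
    · rw [Finset.sum_range, ← h1]
      refine Fintype.sum_equiv f.symm _ _ ?_
      intro n
      simp only [hc, hd, dif_pos, n.isLt, Fin.eta]
    · rw [Finset.sum_range, ← h2]
      refine Fintype.sum_equiv f.symm _ _ ?_
      intro n
      simp only [hc, hd, dif_pos, n.isLt, Fin.eta]

section Paley

variable {F : Type} [Field F] [Fintype F] [DecidableEq F]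

omit [DecidableEq F] in
theorem ringChar_ne_two (hF : Fintype.card F % 4 = 1) : ringChar F ≠ 2 := by
  intro h
  have := FiniteField.even_card_of_char_two h
  omega

theorem chi_neg_one (hF : Fintype.card F % 4 = 1) : quadraticChar F (-1) = 1 := by
  rw [quadraticChar_neg_one (ringChar_ne_two hF)]
  exact ZMod.χ₄_nat_one_mod_four hF

theorem chi_corr (hF : Fintype.card F % 4 = 1) {s : F} (hs : s ≠ 0) :
    ∑ x : F, quadraticChar F x * quadraticChar F (x + s) = -1 := by
  have hne : quadraticChar F ≠ 1 := quadraticChar_ne_one (ringChar_ne_two hF)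
  have hJ := jacobiSum_nontrivial_inv (F := F) (R := ℤ) hne
  rw [(quadraticChar_isQuadratic F).inv, chi_neg_one hF] at hJ
  rw [← hJ, jacobiSum]
  symm
  refine Fintype.sum_equiv (Equiv.mulLeft₀ (-s) (neg_ne_zero.mpr hs)) _ _ ?_
  intro x
  have h1 : (Equiv.mulLeft₀ (-s) (neg_ne_zero.mpr hs)) x = (-1) * s * x := by
    simp
  have h2 : (-1) * s * x + s = s * (1 - x) := by ring
  rw [h1, h2]
  simp only [map_mul, chi_neg_one hF, one_mul]
  have h3 : quadraticChar F s * quadraticChar F s = 1 := by
    rw [← sq]; exact quadraticChar_sq_one hs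
  linear_combination (-(quadraticChar F x * quadraticChar F (1 - x))) * h3

/-- the conference matrix on `Option F` -/
def conf : Option F → Option F → ℤ
  | none, none => 0
  | none, some _ => 1
  | some _, none => 1
  | some a, some b => quadraticChar F (a - b)

theorem conf_symm (hF : Fintype.card F % 4 = 1) (c d : Option F) : conf c d = conf d c := by
  rcases c with _ | a <;> rcases d with _ | b
  · rfl
  · rfl
  · rfl
  · simp only [conf]
    have : b - a = (-1) * (a - b) := by ring
    rw [this, map_mul, chi_neg_one hF, one_mul]

theorem conf_self (c : Option F) : conf c c = 0 := by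
  rcases c with _ | a
  · rfl
  · simp [conf]

theorem conf_pm {c d : Option F} (h : c ≠ d) : conf c d = 1 ∨ conf c d = -1 := by
  rcases c with _ | a <;> rcases d with _ | b
  · exact absurd rfl h
  · exact Or.inl rfl
  · exact Or.inl rfl
  · have hab : a ≠ b := fun h' => h (by rw [h'])
    exact quadraticChar_dichotomy (sub_ne_zero.mpr hab)

theorem conf_gram (hF : Fintype.card F % 4 = 1) {c d : Option F} (h : c ≠ d) :
    ∑ n : Option F, conf c n * conf d n = 0 := by
  have hsum : ∀ a : F, ∑ x : F, quadraticChar F (a - x) = 0 := by
    intro a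
    rw [← quadraticChar_sum_zero (ringChar_ne_two hF)]
    exact Fintype.sum_equiv (Equiv.subLeft a) _ _ (fun x => rfl)
  rw [Fintype.sum_option]
  rcases c with _ | a <;> rcases d with _ | b
  · exact absurd rfl h
  · simp only [conf, zero_mul, one_mul, zero_add, hsum]
  · simp only [conf, mul_zero, mul_one, zero_add, hsum]
  · have hab : b - a ≠ 0 := sub_ne_zero.mpr (fun h' => h (by rw [h']))
    have := chi_corr hF hab
    have e : ∑ x : F, quadraticChar F (a - x) * quadraticChar F (b - x) = -1 := by
      rw [← this]
      refine Fintype.sum_equiv (Equiv.subLeft a) _ _ ?_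
      intro x
      simp only [Equiv.subLeft_apply]
      congr 2
      ring
    simp only [conf]
    rw [e]; norm_num

theorem OD.paley (hF : Fintype.card F % 4 = 1) :
    OD (Fintype.card F + 1) (Fintype.card F + 1) := by
  have hc : Fintype.card (Option F) = Fintype.card F + 1 := Fintype.card_option
  rw [← hc]
  refine OD.of_fintype (fun c n => conf c n + if c = n then 1 else 0)
    (fun c n => conf c n - if c = n then 1 else 0) ?_ ?_ ?_
  · intro c n
    by_cases h : c = n
    · subst h; simp [conf_self]
    · simpa [h] using conf_pm h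
  · intro c n
    by_cases h : c = n
    · subst h; simp [conf_self]
    · simpa [h] using conf_pm h
  · intro c d h
    constructor
    · have e : ∀ n : Option F, (conf c n + if c = n then 1 else 0) * (conf d n + if d = n then 1 else 0)
          + (conf c n - if c = n then 1 else 0) * (conf d n - if d = n then 1 else 0)
          = 2 * (conf c n * conf d n) := by
        intro n
        by_cases h1 : c = n
        · subst h1
          have h2 : ¬ d = c := fun h2 => h h2.symm
          simp only [if_true, h2, if_false]; ring
        · simp only [h1, if_false]; ring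
      simp only [e, ← Finset.mul_sum, conf_gram hF h, mul_zero]
    · have e : ∀ n : Option F, (conf c n + if c = n then 1 else 0) * (conf d n - if d = n then 1 else 0)
          - (conf c n - if c = n then 1 else 0) * (conf d n + if d = n then 1 else 0)
          = 2 * (if c = n then conf d n else 0) - 2 * (if d = n then conf c n else 0) := by
        intro n
        by_cases h1 : c = n <;> by_cases h2 : d = n <;> simp only [h1, h2, if_true, if_false] <;> ring
      simp only [e, Finset.sum_sub_distrib, ← Finset.mul_sum, Finset.sum_ite_eq, Finset.mem_univ,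
        if_true]
      rw [conf_symm hF d c]
      ring

end Paley

theorem OD.prime_pow {p : ℕ} (hp : p.Prime) {k : ℕ} (hk : k ≠ 0) (h : p ^ k % 4 = 1) :
    OD (p ^ k + 1) (p ^ k + 1) := by
  classical
  have : Fact p.Prime := ⟨hp⟩
  have : Fintype (GaloisField p k) := Fintype.ofFinite _
  have hc : Fintype.card (GaloisField p k) = p ^ k := by
    rw [← Nat.card_eq_fintype_card]; exact GaloisField.card p k hk
  have := OD.paley (F := GaloisField p k) (by rw [hc]; exact h)
  rwa [hc] at this

end Pool.Agent.H109HD
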