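import Mathlib
import Pool.Agent.H109R2.HD.Orth
import Pool.Agent.H109R2.HD.Paley

/-!
Enough pairwise orthogonal rows of length `2 t`.
-/

set_option autoImplicit false

namespace Pool.Agent.H109HD

theorem OD.comb {K N M n : ℕ} (h : OD K N) (h' : OD K M) (c d : ℕ) (e : c * N + d * M = n) :
    OD K n := by
  rw [← e]
  exact (h.mul c).add (h'.mul d)

theorem exists_comb {m n t : ℕ} (hn : 1 < n) (hc : Nat.Coprime m n) (h : m * n ≤ t) :
    ∃ c d, m * c + n * d = t := by
  obtain ⟨u, -, hu⟩ := Nat.exists_mul_mod_eq_one_of_coprime hc hn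
  set c := (u * t) % n with hcd
  have hcn : c < n := Nat.mod_lt _ (by omega)
  have h1 : m * c ≤ t := by
    have : m * c ≤ m * n := Nat.mul_le_mul_left m hcn.le
    omega
  have h2 : m * c ≡ t [MOD n] := by
    have a1 : c ≡ u * t [MOD n] := Nat.mod_modEq _ _
    have a2 : m * u ≡ 1 [MOD n] := by
      unfold Nat.ModEq
      rw [hu, Nat.mod_eq_of_lt hn]
    calc m * c ≡ m * (u * t) [MOD n] := a1.mul_left m
      _ = (m * u) * t := by ring
      _ ≡ 1 * t [MOD n] := a2.mul_right t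
      _ = t := one_mul t
  obtain ⟨d, hd⟩ := (Nat.modEq_iff_dvd' h1).mp h2
  exact ⟨c, d, by omega⟩

theorem two_pow_ge {P : ℕ} (hP : 10 ≤ P) : 10 * P ^ 2 + 1 ≤ 2 ^ P := by
  induction P, hP using Nat.le_induction with
  | base => norm_num
  | succ P hP ih =>
    have e : 2 ^ (P + 1) = 2 * 2 ^ P := by ring
    rw [e]
    nlinarith

theorem OD.six : OD 6 6 := by
  have := OD.prime_pow (p := 5) (by norm_num) (k := 1) (by norm_num) (by norm_num)
  simpa using this

theorem OD.ten : OD 10 10 := by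
  have := OD.prime_pow (p := 3) (by norm_num) (k := 2) (by norm_num) (by norm_num)
  simpa using this

theorem OD.eighteen : OD 18 18 := by
  have := OD.prime_pow (p := 17) (by norm_num) (k := 1) (by norm_num) (by norm_num)
  simpa using this

theorem OD.large {P t : ℕ} (hP : 10 ≤ P) (h : 2 ^ P ≤ t + 1) : OD (2 * P) (2 * t) := by
  set k := Nat.clog 5 (2 * P) with hk
  set b := Nat.clog 2 (2 * P) with hb
  have hk1 : 2 * P ≤ 5 ^ k := Nat.le_pow_clog (by norm_num) _
  have hb1 : 2 * P ≤ 2 ^ b := Nat.le_pow_clog (by norm_num) _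
  have hk0 : k ≠ 0 := by
    intro h0; rw [h0] at hk1; norm_num at hk1; omega
  have hb0 : b ≠ 0 := by
    intro h0; rw [h0] at hb1; norm_num at hb1; omega
  have hk2 : 5 ^ (k - 1) < 2 * P := by
    have := Nat.pow_pred_clog_lt_self (b := 5) (by norm_num) (x := 2 * P) (by omega)
    simpa [Nat.pred_eq_sub_one] using this
  have hb2 : 2 ^ (b - 1) < 2 * P := by
    have := Nat.pow_pred_clog_lt_self (b := 2) (by norm_num) (x := 2 * P) (by omega)
    simpa [Nat.pred_eq_sub_one] using this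
  have hk3 : 5 ^ k = 5 * 5 ^ (k - 1) := by
    conv_lhs => rw [show k = (k - 1) + 1 by omega]
    rw [pow_succ]; ring
  have hb3 : 2 ^ b = 2 * 2 ^ (b - 1) := by
    conv_lhs => rw [show b = (b - 1) + 1 by omega]
    rw [pow_succ]; ring
  have h4 : 5 ^ k % 4 = 1 := by
    rw [Nat.pow_mod]; norm_num
  obtain ⟨m, hm⟩ : ∃ m, 5 ^ k + 1 = 2 * m := ⟨(5 ^ k + 1) / 2, by omega⟩
  have hmodd : m % 2 = 1 := by omega
  have hb4 : 1 < 2 ^ (b - 1) := by omega
  have hcop : Nat.Coprime m (2 ^ (b - 1)) := by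
    apply Nat.Coprime.pow_right
    exact Nat.coprime_two_right.mpr (Nat.odd_iff.mpr hmodd)
  have hle : m * 2 ^ (b - 1) ≤ t := by
    have a1 : m ≤ 5 * P := by omega
    have a2 : 2 ^ (b - 1) ≤ 2 * P := by omega
    have a3 : m * 2 ^ (b - 1) ≤ (5 * P) * (2 * P) := Nat.mul_le_mul a1 a2
    have a4 := two_pow_ge hP
    nlinarith
  obtain ⟨c, d, hcd⟩ := exists_comb hb4 hcop hle
  have o1 : OD (2 * P) (5 ^ k + 1) :=
    (OD.prime_pow (p := 5) (by norm_num) hk0 h4).mono (by omega)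
  have o2 : OD (2 * P) (2 ^ b) := (OD.pow b).mono hb1
  refine o1.comb o2 c d ?_
  rw [hm, hb3, ← hcd]
  ring

theorem OD.main {P t : ℕ} (hP : 1 ≤ P) (h : 2 ^ P ≤ t + 1) : OD (2 * P) (2 * t) := by
  rcases Nat.lt_or_ge P 10 with h10 | h10
  · interval_cases P
    · have := (OD.pow 1).mul t
      norm_num at this ⊢
      rwa [mul_comm] at this
    · -- 6, 4
      have o1 : OD 4 6 := OD.six.mono (by norm_num)
      have o2 : OD 4 4 := OD.pow 2
      norm_num at h ⊢
      obtain ⟨c, d, e⟩ : ∃ c d, 3 * c + 2 * d = t := ⟨t % 2, (t - 3 * (t % 2)) / 2, by omega⟩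
      exact o1.comb o2 c d (by omega)
    · have o1 : OD 6 6 := OD.six
      have o2 : OD 6 8 := (OD.pow 3).mono (by norm_num)
      norm_num at h ⊢
      obtain ⟨c, d, e⟩ : ∃ c d, 3 * c + 4 * d = t :=
        ⟨(3 * t) % 4, (t - 3 * ((3 * t) % 4)) / 4, by omega⟩
      exact o1.comb o2 c d (by omega)
    · have o1 : OD 8 10 := OD.ten.mono (by norm_num)
      have o2 : OD 8 8 := OD.pow 3
      norm_num at h ⊢
      obtain ⟨c, d, e⟩ : ∃ c d, 5 * c + 4 * d = t :=
        ⟨t % 4, (t - 5 * (t % 4)) / 4, by omega⟩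
      exact o1.comb o2 c d (by omega)
    · have o1 : OD 10 10 := OD.ten
      have o2 : OD 10 16 := (OD.pow 4).mono (by norm_num)
      norm_num at h ⊢
      obtain ⟨c, d, e⟩ : ∃ c d, 5 * c + 8 * d = t :=
        ⟨(5 * t) % 8, (t - 5 * ((5 * t) % 8)) / 8, by omega⟩
      exact o1.comb o2 c d (by omega)
    · have o1 : OD 12 18 := OD.eighteen.mono (by norm_num)
      have o2 : OD 12 16 := (OD.pow 4).mono (by norm_num)
      norm_num at h ⊢
      obtain ⟨c, d, e⟩ : ∃ c d, 9 * c + 8 * d = t :=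
        ⟨t % 8, (t - 9 * (t % 8)) / 8, by omega⟩
      exact o1.comb o2 c d (by omega)
    · have o1 : OD 14 18 := OD.eighteen.mono (by norm_num)
      have o2 : OD 14 16 := (OD.pow 4).mono (by norm_num)
      norm_num at h ⊢
      obtain ⟨c, d, e⟩ : ∃ c d, 9 * c + 8 * d = t :=
        ⟨t % 8, (t - 9 * (t % 8)) / 8, by omega⟩
      exact o1.comb o2 c d (by omega)
    · have o1 : OD 16 18 := OD.eighteen.mono (by norm_num)
      have o2 : OD 16 16 := OD.pow 4
      norm_num at h ⊢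
      obtain ⟨c, d, e⟩ : ∃ c d, 9 * c + 8 * d = t :=
        ⟨t % 8, (t - 9 * (t % 8)) / 8, by omega⟩
      exact o1.comb o2 c d (by omega)
    · have o1 : OD 18 18 := OD.eighteen
      have o2 : OD 18 32 := (OD.pow 5).mono (by norm_num)
      norm_num at h ⊢
      obtain ⟨c, d, e⟩ : ∃ c d, 9 * c + 16 * d = t :=
        ⟨(9 * t) % 16, (t - 9 * ((9 * t) % 16)) / 16, by omega⟩
      exact o1.comb o2 c d (by omega)
  · exact OD.large h10 h

end Pool.Agent.H109HD
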