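import Mathlib

/-!
Higher-dimensional Hadamard matrices (MP_afadd1_co): the four-dimensional construction from a
three-dimensional array and the passage from dimension `n` to dimension `n + 1`.
-/

set_option autoImplicit false

open Finset

namespace Pool.Agent.H109HD

/-- There is an `n`-dimensional array with entries `1, -1` over the index set `I` whose distinct
parallel slices are orthogonal in every direction. -/
def HM (n : ℕ) (I : Type) [Fintype I] [DecidableEq I] : Prop :=
  ∃ A : (Fin n → I) → ℤ, (∀ i, A i = 1 ∨ A i = -1) ∧
    ∀ l : Fin n, ∀ x y : I, x ≠ y →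
      ∑ i : Fin n → I, A (Function.update i l x) * A (Function.update i l y) = 0

theorem sq_pm {a : ℤ} (h : a = 1 ∨ a = -1) : a * a = 1 := by
  rcases h with h | h <;> simp [h]

theorem HM.equiv {n : ℕ} {I J : Type} [Fintype I] [DecidableEq I] [Fintype J] [DecidableEq J]
    (e : I ≃ J) (h : HM n I) : HM n J := by
  obtain ⟨A, hA, hs⟩ := h
  refine ⟨fun i => A (fun k => e.symm (i k)), fun i => hA _, ?_⟩
  intro l x y hxy
  have h0 := hs l (e.symm x) (e.symm y) (fun h => hxy (e.symm.injective h))
  rw [← h0]
  refine Fintype.sum_equiv (Equiv.piCongrRight (fun _ => e.symm)) _ _ ?_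
  intro i
  have key : ∀ z : J, (fun k => e.symm ((Function.update i l z) k))
      = Function.update ((Equiv.piCongrRight (fun _ : Fin n => e.symm)) i) l (e.symm z) := by
    intro z
    funext k
    by_cases hk : k = l
    · subst hk; simp
    · simp [Function.update_of_ne hk]
  change A (fun k => e.symm (Function.update i l x k)) *
      A (fun k => e.symm (Function.update i l y k)) = _
  rw [key x, key y]

/-- the sum over four-fold index functions as an iterated sum -/
theorem sum_four {I : Type} [Fintype I] [DecidableEq I] (f : (Fin 4 → I) → ℤ) :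
    ∑ i : Fin 4 → I, f i = ∑ a, ∑ b, ∑ c, ∑ d, f ![a, b, c, d] := by
  have step : ∀ (m : ℕ) (g : (Fin (m + 1) → I) → ℤ),
      ∑ i : Fin (m + 1) → I, g i = ∑ a : I, ∑ i : Fin m → I, g (Fin.cons a i) := by
    intro m g
    rw [← Fintype.sum_prod_type']
    exact (Fintype.sum_equiv (Fin.consEquiv (fun _ : Fin (m + 1) => I)) _ _ (fun p => rfl)).symm
  rw [step]
  refine Finset.sum_congr rfl fun a _ => ?_
  rw [step]
  refine Finset.sum_congr rfl fun b _ => ?_
  rw [step]
  refine Finset.sum_congr rfl fun c _ => ?_
  rw [step]
  refine Finset.sum_congr rfl fun d _ => ?_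
  rw [Fintype.sum_unique]
  congr 1

theorem four {I : Type} [Fintype I] [DecidableEq I] (B : I → I → I → ℤ)
    (hB : ∀ x y n, B x y n = 1 ∨ B x y n = -1)
    (hsym : ∀ x y n, B x y n = B y x n)
    (h1 : ∀ x x', x ≠ x' → ∑ y, ∑ n, B x y n * B x' y n = 0)
    (h2 : ∀ y y' n n', ∑ x, B x y n * B x y n' = ∑ x, B x y' n * B x y' n') :
    HM 4 I := by
  refine ⟨fun i => B (i 0) (i 1) (i 2) * B (i 3) (i 2) (i 1), ?_, ?_⟩
  · intro i
    rcases hB (i 0) (i 1) (i 2) with h | h <;> rcases hB (i 3) (i 2) (i 1) with h' | h' <;>
      simp [h, h']
  · have h1' : ∀ x x', x ≠ x' → ∑ n, ∑ y, B y x n * B y x' n = 0 := by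
      intro x x' hx
      rw [Finset.sum_comm, ← h1 x x' hx]
      refine Finset.sum_congr rfl fun y _ => Finset.sum_congr rfl fun n _ => ?_
      rw [hsym y x n, hsym y x' n]
    intro l x y hxy
    rw [sum_four]
    fin_cases l
    · -- direction 0
      have : ∀ a b c d : I,
          (fun i : Fin 4 → I => B (i 0) (i 1) (i 2) * B (i 3) (i 2) (i 1))
            (Function.update ![a, b, c, d] 0 x) *
          (fun i : Fin 4 → I => B (i 0) (i 1) (i 2) * B (i 3) (i 2) (i 1))
            (Function.update ![a, b, c, d] 0 y) = B x b c * B y b c := by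
        intro a b c d
        have h : B d c b * B d c b = 1 := sq_pm (hB d c b)
        have e : (B x b c * B d c b) * (B y b c * B d c b) = B x b c * B y b c := by
          linear_combination (B x b c * B y b c) * h
        simpa using e
      simp only [Fin.zero_eta]
      simp only [this]
      simp only [Finset.sum_const]
      simp only [← Finset.smul_sum, h1 x y hxy, smul_zero]
    · -- direction 1
      have : ∀ a b c d : I,
          (fun i : Fin 4 → I => B (i 0) (i 1) (i 2) * B (i 3) (i 2) (i 1))
            (Function.update ![a, b, c, d] 1 x) *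
          (fun i : Fin 4 → I => B (i 0) (i 1) (i 2) * B (i 3) (i 2) (i 1))
            (Function.update ![a, b, c, d] 1 y)
            = (B a x c * B a y c) * (B d c x * B d c y) := by
        intro a b c d
        have e : (B a x c * B d c x) * (B a y c * B d c y)
            = (B a x c * B a y c) * (B d c x * B d c y) := by ring
        simpa using e
      simp only [Fin.mk_one]
      simp only [this]
      obtain ⟨z⟩ : Nonempty I := ⟨x⟩
      have hg : ∀ c, ∑ d, B d c x * B d c y = ∑ d, B d z x * B d z y := fun c => h2 c z x y
      simp only [← Finset.mul_sum, hg]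
      simp only [← Finset.sum_mul]
      rw [Finset.sum_comm]
      have : ∀ b : I, (∑ a, ∑ c, B a x c * B a y c) = 0 := by
        intro b
        rw [Finset.sum_comm]
        exact h1' x y hxy
      simp only [this x, zero_mul, Finset.sum_const_zero]
    · -- direction 2
      have : ∀ a b c d : I,
          (fun i : Fin 4 → I => B (i 0) (i 1) (i 2) * B (i 3) (i 2) (i 1))
            (Function.update ![a, b, c, d] 2 x) *
          (fun i : Fin 4 → I => B (i 0) (i 1) (i 2) * B (i 3) (i 2) (i 1))
            (Function.update ![a, b, c, d] 2 y)
            = (B a b x * B a b y) * (B d x b * B d y b) := by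
        intro a b c d
        have e : (B a b x * B d x b) * (B a b y * B d y b)
            = (B a b x * B a b y) * (B d x b * B d y b) := by ring
        simpa using e
      have h2i : (⟨2, by norm_num⟩ : Fin 4) = 2 := rfl
      simp only [h2i]
      simp only [this]
      obtain ⟨z⟩ : Nonempty I := ⟨x⟩
      have hg : ∀ b, ∑ a, B a b x * B a b y = ∑ a, B a z x * B a z y := fun b => h2 b z x y
      rw [Finset.sum_comm]
      have e1 : ∀ b : I, ∑ a : I, ∑ _c : I, ∑ d : I, (B a b x * B a b y) * (B d x b * B d y b)
          = (∑ a, B a z x * B a z y) * ((Fintype.card I : ℤ) * ∑ d, B d x b * B d y b) := by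
        intro b
        simp only [← Finset.mul_sum, Finset.sum_const, Finset.card_univ, nsmul_eq_mul]
        rw [← hg b, Finset.sum_mul]
      simp only [e1]
      rw [← Finset.mul_sum, ← Finset.mul_sum]
      have e2 : ∑ b, ∑ d, B d x b * B d y b = 0 := by
        rw [Finset.sum_comm]
        have := h1 x y hxy
        rw [← this]
        refine Finset.sum_congr rfl fun d _ => Finset.sum_congr rfl fun b _ => ?_
        rw [hsym d x b, hsym d y b]
      rw [e2]
      simp
    · -- direction 3
      have : ∀ a b c d : I,
          (fun i : Fin 4 → I => B (i 0) (i 1) (i 2) * B (i 3) (i 2) (i 1))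
            (Function.update ![a, b, c, d] 3 x) *
          (fun i : Fin 4 → I => B (i 0) (i 1) (i 2) * B (i 3) (i 2) (i 1))
            (Function.update ![a, b, c, d] 3 y) = B x c b * B y c b := by
        intro a b c d
        have h : B a b c * B a b c = 1 := sq_pm (hB a b c)
        have e : (B a b c * B x c b) * (B a b c * B y c b) = B x c b * B y c b := by
          linear_combination (B x c b * B y c b) * h
        simpa using e
      have h3i : (⟨3, by norm_num⟩ : Fin 4) = 3 := rfl
      simp only [h3i]
      simp only [this]
      simp only [Finset.sum_const, ← Finset.smul_sum]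
      rw [Finset.sum_comm, h1 x y hxy]
      simp

/-- from dimension `n + 1` to dimension `n + 2` over a finite abelian group -/
theorem HM.succ {n : ℕ} {I : Type} [Fintype I] [DecidableEq I] [AddCommGroup I]
    (h : HM (n + 1) I) : HM (n + 2) I := by
  obtain ⟨A, hA, hs⟩ := h
  have hcons : ∀ g : (Fin (n + 2) → I) → ℤ,
      ∑ i : Fin (n + 2) → I, g i = ∑ a : I, ∑ i : Fin (n + 1) → I, g (Fin.cons a i) := by
    intro g
    rw [← Fintype.sum_prod_type']
    exact (Fintype.sum_equiv (Fin.consEquiv (fun _ : Fin (n + 2) => I)) _ _ (fun p => rfl)).symm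
  have hadd : ∀ (i : Fin (n + 1) → I) (z : I),
      i + Pi.single 0 z = Function.update i 0 (i 0 + z) := by
    intro i z
    funext k
    by_cases hk : k = 0
    · subst hk; simp
    · simp [Function.update_of_ne hk, Pi.single_eq_of_ne hk]
  refine ⟨fun i => A (Fin.tail i + Pi.single 0 (i 0)), fun i => hA _, ?_⟩
  intro l x y hxy
  rw [hcons]
  refine Fin.cases ?_ (fun j => ?_) l
  · -- the new direction
    have e : ∀ (z w : I) (i : Fin (n + 1) → I),
        (fun i : Fin (n + 2) → I => A (Fin.tail i + Pi.single 0 (i 0)))
          (Function.update (Fin.cons z i : Fin (n + 2) → I) 0 w) = A (i + Pi.single 0 w) := by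
      intro z w i
      have : Function.update (Fin.cons z i : Fin (n + 2) → I) 0 w = Fin.cons w i := by
        simp
      rw [this]
      rfl
    simp only [e]
    have hS : ∑ i : Fin (n + 1) → I, A (i + Pi.single 0 x) * A (i + Pi.single 0 y) = 0 := by
      have h1 : ∑ w : I, ∑ i : Fin (n + 1) → I,
          A (Function.update i 0 (w + x)) * A (Function.update i 0 (w + y)) = 0 := by
        refine Finset.sum_eq_zero fun w _ => hs 0 _ _ ?_
        intro hw
        exact hxy (add_left_cancel hw)
      have h2 : ∑ w : I, ∑ i : Fin (n + 1) → I,
          A (Function.update i 0 (w + x)) * A (Function.update i 0 (w + y))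
          = ∑ w : I, ∑ i : Fin (n + 1) → I,
            A (i + Pi.single 0 x) * A (i + Pi.single 0 y) := by
        rw [Finset.sum_comm]
        have h3 : ∀ i : Fin (n + 1) → I,
            ∑ w : I, A (Function.update i 0 (w + x)) * A (Function.update i 0 (w + y))
            = ∑ w : I, A ((i + Pi.single 0 w) + Pi.single 0 x)
                * A ((i + Pi.single 0 w) + Pi.single 0 y) := by
          intro i
          refine (Fintype.sum_equiv (Equiv.addLeft (i 0)) _ _ ?_).symm
          intro w
          have : ∀ u : I, (i + Pi.single 0 w) + Pi.single 0 u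
              = Function.update i 0 ((Equiv.addLeft (i 0)) w + u) := by
            intro u
            rw [hadd, hadd]
            simp
          rw [this x, this y]
        simp only [h3]
        rw [Finset.sum_comm]
        refine Finset.sum_congr rfl fun w _ => ?_
        exact Fintype.sum_equiv (Equiv.addRight (Pi.single 0 w)) _ _ (fun i => rfl)
      rw [h1, Finset.sum_const, Finset.card_univ, nsmul_eq_mul] at h2
      have hc : (Fintype.card I : ℤ) ≠ 0 := by
        have : 0 < Fintype.card I := Fintype.card_pos_iff.mpr ⟨x⟩
        exact_mod_cast this.ne'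
      rcases mul_eq_zero.mp h2.symm with h | h
      · exact absurd h hc
      · exact h
    rw [hS]
    simp
  · -- an old direction
    have e : ∀ (z w : I) (i : Fin (n + 1) → I),
        (fun i : Fin (n + 2) → I => A (Fin.tail i + Pi.single 0 (i 0)))
          (Function.update (Fin.cons z i : Fin (n + 2) → I) j.succ w)
          = A (Function.update i j w + Pi.single 0 z) := by
      intro z w i
      have : Function.update (Fin.cons z i : Fin (n + 2) → I) j.succ w
          = Fin.cons z (Function.update i j w) := by
        rw [Fin.cons_update]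
      rw [this]
      rfl
    simp only [e]
    refine Finset.sum_eq_zero fun z _ => ?_
    by_cases hj : j = 0
    · subst hj
      have : ∀ (w : I) (i : Fin (n + 1) → I), Function.update i 0 w + Pi.single 0 z
          = Function.update i 0 (w + z) := by
        intro w i
        rw [hadd]
        simp
      simp only [this]
      exact hs 0 _ _ (fun h => hxy (add_right_cancel h))
    · have : ∀ (w : I) (i : Fin (n + 1) → I), Function.update i j w + Pi.single 0 z
          = Function.update (i + Pi.single 0 z) j w := by
        intro w i
        funext k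
        by_cases hk : k = j
        · subst hk
          simp [Pi.single_eq_of_ne hj]
        · simp [Function.update_of_ne hk]
      simp only [this]
      rw [← hs j x y hxy]
      exact Fintype.sum_equiv (Equiv.addRight (Pi.single 0 z)) _ _ (fun i => rfl)

theorem HM.of_four {I : Type} [Fintype I] [DecidableEq I] [AddCommGroup I]
    (h : HM 4 I) : ∀ n, 4 ≤ n → HM n I := by
  intro n hn
  obtain ⟨m, rfl⟩ := Nat.exists_eq_add_of_le hn
  clear hn
  induction m with
  | zero => exact h
  | succ m ih =>
    have e : 4 + m = (3 + m) + 1 := by omega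
    have e' : 4 + (m + 1) = (3 + m) + 2 := by omega
    rw [e'] 
    rw [e] at ih
    exact ih.succ

end Pool.Agent.H109HD
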