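import Mathlib

/-!
Coloured complementary sequences built from Golay pairs.
-/

set_option autoImplicit false

open Finset

namespace Pool.Agent.H109HD

/-- A signed sequence of length `t` whose positions are coloured with `K` colours, such that the
colour classes form a complementary family.  The condition is stated with an arbitrary weight `h`
of the difference of two positions of the same colour. -/
def O1 (t K : ℕ) : Prop :=
  ∃ (A : ℕ → ℤ) (c : ℕ → ℕ), (∀ x, A x = 1 ∨ A x = -1) ∧ (∀ x, x < t → c x < K) ∧
    ∀ h : ℤ → ℤ, ∑ x ∈ range t, ∑ y ∈ range t,
      (if c x = c y then A x * A y * h ((x : ℤ) - y) else 0) = t * h 0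

theorem O1.zero : O1 0 0 :=
  ⟨fun _ => 1, fun _ => 0, fun _ => Or.inl rfl, fun x hx => absurd hx (Nat.not_lt_zero x),
    fun h => by simp⟩

theorem O1.one : O1 1 1 :=
  ⟨fun _ => 1, fun _ => 0, fun _ => Or.inl rfl, fun _ _ => Nat.one_pos, fun h => by simp⟩

theorem O1.mono {t K L : ℕ} (h : O1 t K) (hKL : K ≤ L) : O1 t L := by
  obtain ⟨A, c, hA, hc, hh⟩ := h
  exact ⟨A, c, hA, fun x hx => lt_of_lt_of_le (hc x hx) hKL, hh⟩

theorem O1.add {t u K L : ℕ} (h : O1 t K) (h' : O1 u L) : O1 (t + u) (K + L) := by
  obtain ⟨A, c, hA, hc, hh⟩ := h
  obtain ⟨A', c', hA', hc', hh'⟩ := h'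
  refine ⟨fun x => if x < t then A x else A' (x - t),
    fun x => if x < t then c x else K + c' (x - t), ?_, ?_, ?_⟩
  · intro x
    by_cases hx : x < t
    · simpa [hx] using hA x
    · simpa [hx] using hA' (x - t)
  · intro x hx
    by_cases hxt : x < t
    · have := hc x hxt
      simp only [hxt, if_true]; omega
    · have := hc' (x - t) (by omega)
      simp only [hxt, if_false]; omega
  · intro w
    rw [Finset.sum_range_add]
    have e1 : ∀ x ∈ range t, (∑ y ∈ range (t + u),
        (if (if x < t then c x else K + c' (x - t)) = (if y < t then c y else K + c' (y - t)) then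
          (if x < t then A x else A' (x - t)) * (if y < t then A y else A' (y - t))
            * w ((x : ℤ) - y) else 0))
        = ∑ y ∈ range t, (if c x = c y then A x * A y * w ((x : ℤ) - y) else 0) := by
      intro x hx
      rw [Finset.sum_range_add]
      rw [Finset.mem_range] at hx
      have hz : ∑ y ∈ range u,
        (if (if x < t then c x else K + c' (x - t))
            = (if t + y < t then c (t + y) else K + c' (t + y - t)) then
          (if x < t then A x else A' (x - t)) * (if t + y < t then A (t + y) else A' (t + y - t))
            * w ((x : ℤ) - ((t + y : ℕ) : ℤ)) else 0) = 0 := by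
        refine Finset.sum_eq_zero fun y _ => ?_
        have h1 := hc x hx
        rw [if_pos hx, if_neg (show ¬ t + y < t by omega), if_neg]
        omega
      rw [hz, add_zero]
      refine Finset.sum_congr rfl fun y hy => ?_
      rw [Finset.mem_range] at hy
      simp only [hx, hy, if_true]
    have e2 : ∀ x ∈ range u, (∑ y ∈ range (t + u),
        (if (if t + x < t then c (t + x) else K + c' (t + x - t))
            = (if y < t then c y else K + c' (y - t)) then
          (if t + x < t then A (t + x) else A' (t + x - t)) * (if y < t then A y else A' (y - t))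
            * w (((t + x : ℕ) : ℤ) - y) else 0))
        = ∑ y ∈ range u, (if c' x = c' y then A' x * A' y * w ((x : ℤ) - y) else 0) := by
      intro x hx
      rw [Finset.sum_range_add]
      have hnx : ¬ t + x < t := by omega
      have hz : ∑ y ∈ range t,
        (if (if t + x < t then c (t + x) else K + c' (t + x - t))
            = (if y < t then c y else K + c' (y - t)) then
          (if t + x < t then A (t + x) else A' (t + x - t)) * (if y < t then A y else A' (y - t))
            * w (((t + x : ℕ) : ℤ) - y) else 0) = 0 := by
        refine Finset.sum_eq_zero fun y hy => ?_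
        rw [Finset.mem_range] at hy
        have h1 := hc y hy
        rw [if_neg hnx, if_pos hy, if_neg]
        omega
      rw [hz, zero_add]
      refine Finset.sum_congr rfl fun y hy => ?_
      have hny : ¬ t + y < t := by omega
      simp only [hnx, hny, if_false, Nat.add_sub_cancel_left, Nat.add_left_cancel_iff]
      have : (((t + x : ℕ) : ℤ) - ((t + y : ℕ) : ℤ)) = (x : ℤ) - y := by push_cast; ring
      rw [this]
    rw [Finset.sum_congr rfl e1, Finset.sum_congr rfl e2, hh w, hh' w]
    push_cast
    ring

/-- Golay pairs of length `2 ^ k`. -/
theorem golay (k : ℕ) : ∃ a b : ℕ → ℤ, (∀ x, a x = 1 ∨ a x = -1) ∧ (∀ x, b x = 1 ∨ b x = -1) ∧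
    ∀ h : ℤ → ℤ, ∑ x ∈ range (2 ^ k), ∑ y ∈ range (2 ^ k),
      (a x * a y + b x * b y) * h ((x : ℤ) - y) = 2 * 2 ^ k * h 0 := by
  induction k with
  | zero =>
    refine ⟨fun _ => 1, fun _ => 1, fun _ => Or.inl rfl, fun _ => Or.inl rfl, fun h => ?_⟩
    simp
  | succ k ih =>
    obtain ⟨a, b, ha, hb, hh⟩ := ih
    set m := 2 ^ k with hm
    have hp : 2 ^ (k + 1) = m + m := by rw [pow_succ]; ring
    refine ⟨fun x => if x < m then a x else b (x - m), fun x => if x < m then a x else -b (x - m),
      ?_, ?_, ?_⟩
    · intro x
      by_cases hx : x < m
      · simpa [hx] using ha x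
      · simpa [hx] using hb (x - m)
    · intro x
      by_cases hx : x < m
      · simpa [hx] using ha x
      · rcases hb (x - m) with h | h <;> simp [hx, h]
    · intro w
      rw [hp]
      have split : ∀ g : ℕ → ℕ → ℤ, ∑ x ∈ range (m + m), ∑ y ∈ range (m + m), g x y
          = ∑ x ∈ range m, ∑ y ∈ range m,
            (g x y + g x (m + y) + g (m + x) y + g (m + x) (m + y)) := by
        intro g
        rw [Finset.sum_range_add]
        rw [← Finset.sum_add_distrib]
        refine Finset.sum_congr rfl fun x _ => ?_
        rw [Finset.sum_range_add, Finset.sum_range_add, ← Finset.sum_add_distrib,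
          ← Finset.sum_add_distrib, ← Finset.sum_add_distrib]
        refine Finset.sum_congr rfl fun y _ => ?_
        ring
      rw [split]
      have : ∀ x ∈ range m, ∀ y ∈ range m,
          ((fun x y : ℕ => (((if x < m then a x else b (x - m)) * (if y < m then a y else b (y - m))
            + (if x < m then a x else -b (x - m)) * (if y < m then a y else -b (y - m)))
            * w ((x : ℤ) - y))) x y +
          (fun x y : ℕ => (((if x < m then a x else b (x - m)) * (if y < m then a y else b (y - m))
            + (if x < m then a x else -b (x - m)) * (if y < m then a y else -b (y - m)))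
            * w ((x : ℤ) - y))) x (m + y) +
          (fun x y : ℕ => (((if x < m then a x else b (x - m)) * (if y < m then a y else b (y - m))
            + (if x < m then a x else -b (x - m)) * (if y < m then a y else -b (y - m)))
            * w ((x : ℤ) - y))) (m + x) y +
          (fun x y : ℕ => (((if x < m then a x else b (x - m)) * (if y < m then a y else b (y - m))
            + (if x < m then a x else -b (x - m)) * (if y < m then a y else -b (y - m)))
            * w ((x : ℤ) - y))) (m + x) (m + y))
          = 2 * ((a x * a y + b x * b y) * w ((x : ℤ) - y)) := by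
        intro x hx y hy
        rw [Finset.mem_range] at hx hy
        have hnx : ¬ m + x < m := by omega
        have hny : ¬ m + y < m := by omega
        simp only [hx, hy, hnx, hny, if_true, if_false, Nat.add_sub_cancel_left]
        have h1 : (((m + x : ℕ) : ℤ) - ((m + y : ℕ) : ℤ)) = (x : ℤ) - y := by push_cast; ring
        rw [h1]
        ring
      rw [Finset.sum_congr rfl fun x hx => Finset.sum_congr rfl fun y hy => this x hx y hy]
      simp only [← Finset.mul_sum]
      rw [hh w]
      ring

theorem O1.pow (k : ℕ) : O1 (2 ^ k) 2 := by
  cases k with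
  | zero => exact O1.one.mono (by norm_num)
  | succ k =>
    obtain ⟨a, b, ha, hb, hh⟩ := golay k
    set m := 2 ^ k with hm
    have hp : 2 ^ (k + 1) = m + m := by rw [pow_succ]; ring
    rw [hp]
    refine ⟨fun x => if x < m then a x else b (x - m), fun x => if x < m then 0 else 1, ?_, ?_, ?_⟩
    · intro x
      by_cases hx : x < m
      · simpa [hx] using ha x
      · simpa [hx] using hb (x - m)
    · intro x _
      by_cases hx : x < m <;> simp [hx]
    · intro w
      have split : ∀ g : ℕ → ℕ → ℤ, ∑ x ∈ range (m + m), ∑ y ∈ range (m + m), g x y
          = ∑ x ∈ range m, ∑ y ∈ range m,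
            (g x y + g x (m + y) + g (m + x) y + g (m + x) (m + y)) := by
        intro g
        rw [Finset.sum_range_add]
        rw [← Finset.sum_add_distrib]
        refine Finset.sum_congr rfl fun x _ => ?_
        rw [Finset.sum_range_add, Finset.sum_range_add, ← Finset.sum_add_distrib,
          ← Finset.sum_add_distrib, ← Finset.sum_add_distrib]
        refine Finset.sum_congr rfl fun y _ => ?_
        ring
      rw [split]
      have e : ∀ x ∈ range m, ∀ y ∈ range m,
          ((fun x y : ℕ => (if (if x < m then 0 else 1) = (if y < m then 0 else 1) then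
              (if x < m then a x else b (x - m)) * (if y < m then a y else b (y - m))
                * w ((x : ℤ) - y) else 0)) x y +
          (fun x y : ℕ => (if (if x < m then 0 else 1) = (if y < m then 0 else 1) then
              (if x < m then a x else b (x - m)) * (if y < m then a y else b (y - m))
                * w ((x : ℤ) - y) else 0)) x (m + y) +
          (fun x y : ℕ => (if (if x < m then 0 else 1) = (if y < m then 0 else 1) then
              (if x < m then a x else b (x - m)) * (if y < m then a y else b (y - m))
                * w ((x : ℤ) - y) else 0)) (m + x) y +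
          (fun x y : ℕ => (if (if x < m then 0 else 1) = (if y < m then 0 else 1) then
              (if x < m then a x else b (x - m)) * (if y < m then a y else b (y - m))
                * w ((x : ℤ) - y) else 0)) (m + x) (m + y))
          = (a x * a y + b x * b y) * w ((x : ℤ) - y) := by
        intro x hx y hy
        rw [Finset.mem_range] at hx hy
        have hnx : ¬ m + x < m := by omega
        have hny : ¬ m + y < m := by omega
        simp only [hx, hy, hnx, hny, if_true, if_false, Nat.add_sub_cancel_left]
        have h1 : (((m + x : ℕ) : ℤ) - ((m + y : ℕ) : ℤ)) = (x : ℤ) - y := by push_cast; ring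
        rw [h1]
        simp
        ring
      have := hh w
      rw [← Finset.sum_congr rfl fun x hx => Finset.sum_congr rfl fun y hy => e x hx y hy] at this
      have h2 : ((m + m : ℕ) : ℤ) * w 0 = 2 * 2 ^ k * w 0 := by
        rw [hm]; push_cast; ring
      rw [h2]
      exact this

/-- every length, with the number of colours bounded by twice a number `P` with `2 ^ P ≤ t + 1` -/
theorem O1.exists (t : ℕ) : ∃ P, O1 t (2 * P) ∧ 2 ^ P ≤ t + 1 := by
  induction t using Nat.strong_induction_on with
  | _ t ih =>
    rcases Nat.eq_zero_or_pos t with rfl | ht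
    · exact ⟨0, O1.zero, by norm_num⟩
    · set a := Nat.log 2 t with ha
      have h1 : 2 ^ a ≤ t := Nat.pow_log_le_self 2 ht.ne'
      have h2 : t < 2 ^ (a + 1) := Nat.lt_pow_succ_log_self (by norm_num) t
      have h3 : 0 < 2 ^ a := by positivity
      obtain ⟨P, hP, hP2⟩ := ih (t - 2 ^ a) (by omega)
      refine ⟨P + 1, ?_, ?_⟩
      · have := (O1.pow a).add hP
        have e : 2 ^ a + (t - 2 ^ a) = t := by omega
        rw [e] at this
        have e' : 2 + 2 * P = 2 * (P + 1) := by ring
        rwa [e'] at this
      · rw [pow_succ] at h2 ⊢
        omega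

end Pool.Agent.H109HD
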