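import Mathlib
import Pool.Agent.H109R2.HD.Dim
import Pool.Agent.H109R2.HD.Seq
import Pool.Agent.H109R2.HD.Orth
import Pool.Agent.H109R2.HD.Arith

/-!
Four-dimensional Hadamard matrices of every even order.
-/

set_option autoImplicit false

open Finset

namespace Pool.Agent.H109HD

theorem sum_range_zmod (t : ℕ) [NeZero t] (f : ℕ → ℤ) :
    ∑ x ∈ range t, f x = ∑ w : ZMod t, f w.val := by
  obtain ⟨n, rfl⟩ : ∃ n, t = n + 1 := ⟨t - 1, by have := NeZero.pos t; omega⟩
  exact Finset.sum_range f

/-- the periodic form of the complementarity of the colour classes -/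
theorem periodic {t : ℕ} [NeZero t] (A : ℕ → ℤ) (c : ℕ → ℕ)
    (hh : ∀ h : ℤ → ℤ, ∑ x ∈ range t, ∑ y ∈ range t,
      (if c x = c y then A x * A y * h ((x : ℤ) - y) else 0) = t * h 0)
    {s : ZMod t} (hs : s ≠ 0) :
    ∑ w : ZMod t, (if c w.val = c (w + s).val then A w.val * A (w + s).val else 0) = 0 := by
  have h0 := hh (fun d => if ((d : ℤ) : ZMod t) = -s then 1 else 0)
  have hz : ¬ (((0 : ℤ) : ZMod t) = -s) := by
    intro h
    apply hs
    have : -s = 0 := by rw [← h]; simp
    exact neg_eq_zero.mp this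
  rw [if_neg hz, mul_zero, sum_range_zmod t] at h0
  refine Eq.trans ?_ h0
  refine Finset.sum_congr rfl fun w _ => ?_
  rw [sum_range_zmod t]
  rw [Finset.sum_eq_single (w + s)]
  · have e : (((w.val : ℤ) - ((w + s).val : ℤ) : ℤ) : ZMod t) = -s := by
      push_cast
      rw [ZMod.natCast_zmod_val, ZMod.natCast_zmod_val]
      ring
    rw [if_pos e, mul_one]
  · intro v _ hv
    have e : ¬ ((((w.val : ℤ) - (v.val : ℤ) : ℤ) : ZMod t) = -s) := by
      push_cast
      rw [ZMod.natCast_zmod_val, ZMod.natCast_zmod_val]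
      intro h
      apply hv
      linear_combination -h
    rw [if_neg e, mul_zero, ite_self]
  · intro h
    exact absurd (Finset.mem_univ _) h

/-- the combination of two vectors according to the carry -/
def cmb (P Q : ℤ) : Bool → Bool → ℤ
  | false, false => P
  | true, true => -P
  | false, true => Q
  | true, false => Q

theorem cmb_comm (P Q : ℤ) (a b : Bool) : cmb P Q a b = cmb P Q b a := by
  cases a <;> cases b <;> rfl

theorem cmb_pm {P Q : ℤ} (hP : P = 1 ∨ P = -1) (hQ : Q = 1 ∨ Q = -1) (a b : Bool) :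
    cmb P Q a b = 1 ∨ cmb P Q a b = -1 := by
  rcases hP with h | h <;> rcases hQ with h' | h' <;> cases a <;> cases b <;> simp [cmb, h, h']

theorem mul_pm {a b : ℤ} (ha : a = 1 ∨ a = -1) (hb : b = 1 ∨ b = -1) :
    a * b = 1 ∨ a * b = -1 := by
  rcases ha with h | h <;> rcases hb with h' | h' <;> simp [h, h']

theorem hm_four {t K : ℕ} [NeZero t] (h1 : O1 t K) (h2 : OD K (2 * t)) :
    HM 4 (Bool × ZMod t) := by
  obtain ⟨A, c, hA, hc, hh⟩ := h1
  obtain ⟨p, q, hp, hq, hpq⟩ := h2
  have hcard : Fintype.card (Bool × ZMod t) = 2 * t := by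
    rw [Fintype.card_prod, Fintype.card_bool, ZMod.card]
  let ν : Bool × ZMod t ≃ Fin (2 * t) := Fintype.equivFinOfCardEq hcard
  set P : ZMod t → ℕ → ℤ := fun w k => A w.val * p (c w.val) k with hPdef
  set Q : ZMod t → ℕ → ℤ := fun w k => A w.val * q (c w.val) k with hQdef
  have hP : ∀ w k, P w k = 1 ∨ P w k = -1 := fun w k => mul_pm (hA _) (hp _ _)
  have hQ : ∀ w k, Q w k = 1 ∨ Q w k = -1 := fun w k => mul_pm (hA _) (hq _ _)
  have hcl : ∀ w : ZMod t, c w.val < K := fun w => hc _ (ZMod.val_lt w)
  -- sums over the last index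
  have hν : ∀ f : ℕ → ℤ, ∑ n : Bool × ZMod t, f (ν n) = ∑ k ∈ range (2 * t), f k := by
    intro f
    rw [Finset.sum_range]
    exact Fintype.sum_equiv ν _ _ (fun n => rfl)
  have hPP : ∀ u v : ZMod t, ∑ k ∈ range (2 * t), (P u k * P v k + Q u k * Q v k)
      = (4 * t : ℤ) * (if c u.val = c v.val then A u.val * A v.val else 0) := by
    intro u v
    by_cases h : c u.val = c v.val
    · rw [if_pos h]
      have : ∀ k ∈ range (2 * t), P u k * P v k + Q u k * Q v k = 2 * (A u.val * A v.val) := by
        intro k _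
        simp only [hPdef, hQdef]
        rw [h]
        have e1 := sq_pm (hp (c v.val) k)
        have e2 := sq_pm (hq (c v.val) k)
        linear_combination (A u.val * A v.val) * e1 + (A u.val * A v.val) * e2
      rw [Finset.sum_congr rfl this, Finset.sum_const, Finset.card_range, nsmul_eq_mul]
      push_cast
      ring
    · rw [if_neg h, mul_zero]
      have := (hpq _ _ (hcl u) (hcl v) h).1
      have e : ∀ k ∈ range (2 * t), P u k * P v k + Q u k * Q v k
          = (A u.val * A v.val) * (p (c u.val) k * p (c v.val) k + q (c u.val) k * q (c v.val) k) := by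
        intro k _
        simp only [hPdef, hQdef]
        ring
      rw [Finset.sum_congr rfl e, ← Finset.mul_sum, this, mul_zero]
  have hPQ : ∀ u v : ZMod t, ∑ k ∈ range (2 * t), (P u k * Q v k - Q u k * P v k) = 0 := by
    intro u v
    by_cases h : c u.val = c v.val
    · refine Finset.sum_eq_zero fun k _ => ?_
      simp only [hPdef, hQdef]
      rw [h]
      ring
    · have := (hpq _ _ (hcl u) (hcl v) h).2
      have e : ∀ k ∈ range (2 * t), P u k * Q v k - Q u k * P v k
          = (A u.val * A v.val) * (p (c u.val) k * q (c v.val) k - q (c u.val) k * p (c v.val) k) := by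
        intro k _
        simp only [hPdef, hQdef]
        ring
      rw [Finset.sum_congr rfl e, ← Finset.mul_sum, this, mul_zero]
  refine four (fun x y n => cmb (P (x.2 + y.2) (ν n)) (Q (x.2 + y.2) (ν n)) x.1 y.1)
    ?_ ?_ ?_ ?_
  · intro x y n
    exact cmb_pm (hP _ _) (hQ _ _) _ _
  · intro x y n
    rw [cmb_comm, add_comm]
  · rintro ⟨a, z⟩ ⟨a', z'⟩ hne
    rw [Fintype.sum_prod_type, Fintype.sum_bool]
    rw [← Finset.sum_add_distrib]
    have key : ∀ w : ZMod t,
        (∑ n : Bool × ZMod t, cmb (P (z + w) (ν n)) (Q (z + w) (ν n)) a true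
            * cmb (P (z' + w) (ν n)) (Q (z' + w) (ν n)) a' true)
          + ∑ n : Bool × ZMod t, cmb (P (z + w) (ν n)) (Q (z + w) (ν n)) a false
            * cmb (P (z' + w) (ν n)) (Q (z' + w) (ν n)) a' false
        = ∑ k ∈ range (2 * t), (cmb (P (z + w) k) (Q (z + w) k) a true
            * cmb (P (z' + w) k) (Q (z' + w) k) a' true
            + cmb (P (z + w) k) (Q (z + w) k) a false
            * cmb (P (z' + w) k) (Q (z' + w) k) a' false) := by
      intro w
      rw [← Finset.sum_add_distrib]
      exact hν (fun k => cmb (P (z + w) k) (Q (z + w) k) a true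
            * cmb (P (z' + w) k) (Q (z' + w) k) a' true
            + cmb (P (z + w) k) (Q (z + w) k) a false
            * cmb (P (z' + w) k) (Q (z' + w) k) a' false)
    rw [Finset.sum_congr rfl fun w _ => key w]
    have hper : z ≠ z' → ∑ w : ZMod t, ∑ k ∈ range (2 * t),
        (P (z + w) k * P (z' + w) k + Q (z + w) k * Q (z' + w) k) = 0 := by
      intro hzz
      have hs : z' - z ≠ 0 := sub_ne_zero.mpr hzz.symm
      have := periodic A c hh hs
      rw [Finset.sum_congr rfl fun w _ => hPP (z + w) (z' + w), ← Finset.mul_sum]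
      have e : ∑ w : ZMod t, (if c (z + w).val = c (z' + w).val then
          A (z + w).val * A (z' + w).val else 0) = 0 := by
        refine Eq.trans ?_ this
        refine Fintype.sum_equiv (Equiv.addLeft z) _ _ ?_
        intro w
        have : (Equiv.addLeft z) w + (z' - z) = z' + w := by
          simp only [Equiv.coe_addLeft]; ring
        rw [this]
        rfl
      rw [e, mul_zero]
    cases a <;> cases a'
    · have hzz : z ≠ z' := fun h => hne (by rw [h])
      rw [← hper hzz]
      refine Finset.sum_congr rfl fun w _ => Finset.sum_congr rfl fun k _ => ?_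
      simp only [cmb]; ring
    · refine Finset.sum_eq_zero fun w _ => ?_
      rw [← hPQ (z + w) (z' + w)]
      refine Finset.sum_congr rfl fun k _ => ?_
      simp only [cmb]; ring
    · refine Finset.sum_eq_zero fun w _ => ?_
      rw [← hPQ (z' + w) (z + w)]
      refine Finset.sum_congr rfl fun k _ => ?_
      simp only [cmb]; ring
    · have hzz : z ≠ z' := fun h => hne (by rw [h])
      rw [← hper hzz]
      refine Finset.sum_congr rfl fun w _ => Finset.sum_congr rfl fun k _ => ?_
      simp only [cmb]; ring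
  · have key : ∀ (y n n' : Bool × ZMod t),
        ∑ x : Bool × ZMod t, cmb (P (x.2 + y.2) (ν n)) (Q (x.2 + y.2) (ν n)) x.1 y.1
          * cmb (P (x.2 + y.2) (ν n')) (Q (x.2 + y.2) (ν n')) x.1 y.1
        = ∑ z : ZMod t, (P z (ν n) * P z (ν n') + Q z (ν n) * Q z (ν n')) := by
      rintro ⟨b, w⟩ n n'
      rw [Fintype.sum_prod_type, Fintype.sum_bool]
      dsimp only
      rw [← Finset.sum_add_distrib]
      refine Fintype.sum_equiv (Equiv.addRight w) _ _ ?_
      intro z
      have : (Equiv.addRight w) z = z + w := rfl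
      rw [this]
      cases b <;> simp only [cmb] <;> ring
    intro y y' n n'
    rw [key y n n', key y' n n']

theorem hm_four_all (t : ℕ) (ht : 1 ≤ t) : HM 4 (Fin (2 * t)) := by
  have : NeZero t := ⟨by omega⟩
  obtain ⟨P, h1, h2⟩ := O1.exists t
  have hP : O1 t (2 * max P 1) := h1.mono (by omega)
  have hP2 : 2 ^ (max P 1) ≤ t + 1 := by
    rcases le_total P 1 with h | h
    · rw [max_eq_right h]; omega
    · rw [max_eq_left h]; exact h2
  have := hm_four hP (OD.main (le_max_right _ _) hP2)
  refine this.equiv (Fintype.equivFinOfCardEq ?_)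
  rw [Fintype.card_prod, Fintype.card_bool, ZMod.card]

theorem hm_all (t : ℕ) (ht : 1 ≤ t) (n : ℕ) (hn : 4 ≤ n) : HM n (Fin (2 * t)) := by
  have : NeZero (2 * t) := ⟨by omega⟩
  have h4 := hm_four_all t ht
  have e : Fin (2 * t) ≃ ZMod (2 * t) :=
    (Fintype.equivFinOfCardEq (ZMod.card (2 * t))).symm
  exact ((h4.equiv e).of_four n hn).equiv e.symm

/-- the statement of the problem -/
theorem all (n : ℕ) (hn : 4 ≤ n) (t : ℕ) (ht : 1 ≤ t) :
    ∃ A : (Fin n → Fin (2 * t)) → ℤ,
      (∀ i, A i = 1 ∨ A i = -1) ∧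
      ∀ l : Fin n, ∀ x y : Fin (2 * t),
        (∑ i : Fin n → Fin (2 * t),
            A (Function.update i l x) * A (Function.update i l y)) =
          if x = y then ((2 * t : ℕ) : ℤ) ^ n else 0 := by
  obtain ⟨A, hA, hh⟩ := hm_all t ht n hn
  refine ⟨A, hA, ?_⟩
  intro l x y
  by_cases h : x = y
  · subst h
    rw [if_pos rfl, Finset.sum_congr rfl fun i _ => sq_pm (hA _)]
    simp
  · rw [if_neg h]
    exact hh l x y h

end Pool.Agent.H109HD
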